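import Pool.Agent.Helper89K9.MA.Stm

/-!
# Project MA: the restricted matrices
-/

set_option autoImplicit false

namespace Pool.Agent.Helper88K9.MA

open Finset
open H746R3.Inv (LD bK)
open Pool.Agent.H699R2.OMV (Vec Mat)
open Pool.Agent.Helper89K9.MA

/-- the sum over the coordinates, class by class -/
theorem row_sum {n K : ℕ} (π : Fin n → Option (Fin K)) (a : Fin K → ZMod 2) (u : Vec n) :
    ∑ j, (π j).elim 0 (fun k => a k) * u j = ∑ k, a k * clsum π u k := by
  have h1 : ∀ k, a k * clsum π u k = ∑ j, if π j = some k then a k * u j else 0 := by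
    intro k
    unfold clsum
    rw [Finset.mul_sum, Finset.sum_filter]
  simp only [h1]
  rw [Finset.sum_comm]
  refine Finset.sum_congr rfl fun j _ => ?_
  cases hj : π j with
  | none => simp
  | some k0 => simp

theorem pm_mulVec {n K : ℕ} (π : Fin n → Option (Fin K)) (X : Mat n) (z : Fin n × Fin K → Bool)
    (u : Vec n) (r : Fin n) :
    (pm π X z).mulVec u r = X.mulVec u r + ∑ k, (if z (r, k) then 1 else 0) * clsum π u k := by
  unfold pm
  rw [Matrix.add_mulVec, Pi.add_apply]
  congr 1
  exact row_sum π (fun k => if z (r, k) then 1 else 0) u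

/-- **PM1.** -/
theorem pm1 : S_PM1 := by
  intro n K π h v hs X z
  refine ⟨fun u hu => ?_, ?_⟩
  · funext r
    rw [pm_mulVec]
    simp [hs.1 u hu]
  · funext r
    rw [pm_mulVec, Pi.add_apply]
    simp [hs.2, par]

/-- **PM2.** -/
theorem pm2 : S_PM2 := by
  intro n K π F
  rw [Finset.sum_comm]
  have h1 : ∀ z : Fin n × Fin K → Bool, ∑ X, F (pm π X z) = ∑ M, F M := by
    intro z
    unfold pm
    exact Equiv.sum_comp (Equiv.addRight
      (Matrix.of fun (r : Fin n) (j : Fin n) => (π j).elim 0 (fun k => if z (r, k) then (1 : ZMod 2) else 0))) F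
  simp only [h1]
  rw [Finset.sum_const, Finset.card_univ, nsmul_eq_mul]
  congr 1
  simp

/-- polynomials in functions of degree at most `1` -/
theorem eval_mem {F V σ : Type} [Field F] [Fintype V] [DecidableEq V] (g : σ → (V → Bool) → F)
    (hg : ∀ c, g c ∈ LD F V 1) (D : ℕ) (P : MvPolynomial σ F) (hP : P.totalDegree ≤ D) :
    (fun z => MvPolynomial.eval (fun c => g c z) P) ∈ LD F V D := by
  have h1 : (fun z => MvPolynomial.eval (fun c => g c z) P) =
      ∑ d ∈ P.support, P.coeff d • ∏ i ∈ d.support, g i ^ d i := by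
    funext z
    rw [MvPolynomial.eval_eq, Finset.sum_apply]
    refine Finset.sum_congr rfl fun d _ => ?_
    simp [Finset.prod_apply]
  rw [h1]
  refine Submodule.sum_mem _ fun d hd => Submodule.smul_mem _ _ ?_
  have h2 := H746R3.Inv.prod_mem' (K := F) (V := V) d.support (fun i => g i ^ d i)
    (fun i => d i * 1) (fun i _ => H746R3.Inv.pow_mem' (hg i) (d i))
  refine H746R3.Inv.LD_mono ?_ h2
  have h3 := MvPolynomial.le_totalDegree hd
  simp only [mul_one]
  exact h3.trans hP

/-- **PM3.** -/
theorem pm3 : S_PM3 := by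
  intro n K π h v hs p _ X
  have key : ∀ c, (fun z => (bK (bits h (pm π X z) c) : ZMod p)) ∈
      LD (ZMod p) (Fin n × Fin K) 1 := by
    rintro (⟨r, j⟩ | ⟨i, r⟩)
    · cases hj : π j with
      | none =>
        have e : (fun z : Fin n × Fin K → Bool => (bK (bits h (pm π X z) (Sum.inl (r, j))) : ZMod p)) =
            fun _ => bK (decide (X r j = 1)) := by
          funext z
          simp [bits, pm, hj]
        rw [e]
        exact H746R3.Inv.const_mem _ _
      | some k =>
        have e : (fun z : Fin n × Fin K → Bool => (bK (bits h (pm π X z) (Sum.inl (r, j))) : ZMod p)) =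
            fun z => (fun b : Bool => (bK (decide (X r j + (if b then 1 else 0) = 1)) : ZMod p))
              (z (r, k)) := by
          funext z
          simp [bits, pm, hj]
        rw [e]
        exact H746R3.Inv.bit_mem (K := ZMod p) (V := Fin n × Fin K)
          (fun b : Bool => (bK (decide (X r j + (if b then 1 else 0) = 1)) : ZMod p)) (r, k)
    · have e : (fun z : Fin n × Fin K → Bool => (bK (bits h (pm π X z) (Sum.inr (i, r))) : ZMod p)) =
          fun _ => bK (decide (X.mulVec (h.get i) r = 1)) := by
        funext z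
        have h1 := congrFun ((pm1 n K π h v hs X z).1 (h.get i) (List.get_mem h i)) r
        show (bK (decide ((pm π X z).mulVec (h.get i) r = 1)) : ZMod p) = _
        rw [h1]
      rw [e]
      exact H746R3.Inv.const_mem _ _
  refine ⟨key, fun D P hP => ?_⟩
  exact eval_mem (fun c z => (if bits h (pm π X z) c then (1 : ZMod p) else 0)) key D P hP

end Pool.Agent.Helper88K9.MA
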