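import Pool.Agent.Helper89K9.MA.Stm

/-!
# Project MA: a program with at most `τ` probes is a polynomial
-/

set_option autoImplicit false

namespace Pool.Agent.Helper88K9.MA

open Finset
open H746R3.Inv (LD bK)
open Pool.Agent.H699R2.OMV (Prog)
open Pool.Agent.Helper89K9.MA

/-- the indicator of the value `b` of `w` bits given by functions of degree `D` -/
theorem ind_mem {F V : Type} [Field F] [Fintype V] [DecidableEq V] (w D : ℕ)
    (P : Fin w → (V → Bool) → F) (hP : ∀ i, P i ∈ LD F V D) (b : Fin w → Bool) :
    (∏ i, (if b i then P i else 1 - P i)) ∈ LD F V (w * D) := by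
  have h := H746R3.Inv.prod_mem' (K := F) (V := V) (univ : Finset (Fin w))
    (fun i => if b i then P i else 1 - P i) (fun _ => D) (fun i _ => by
      split_ifs
      · exact hP i
      · exact Submodule.sub_mem _ (H746R3.Inv.one_mem D) (hP i))
  simpa using h

theorem ind_val {F V : Type} [Field F] (w : ℕ) (P : Fin w → (V → Bool) → F) (x : V → Bool)
    (c b : Fin w → Bool) (h : ∀ i, P i x = bK (c i)) :
    (∏ i, (if b i then P i else 1 - P i)) x = if c = b then 1 else 0 := by
  rw [Finset.prod_apply]
  have h1 : ∀ i, (if b i then P i else 1 - P i) x = if c i = b i then (1 : F) else 0 := by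
    intro i
    cases hb : b i <;> cases hc : c i <;> simp [h i, hc, H746R3.Inv.bK]
  simp only [h1]
  split_ifs with h2
  · exact Finset.prod_eq_one fun i _ => by rw [h2]; simp
  · obtain ⟨i, hi⟩ := Function.ne_iff.1 h2
    exact Finset.prod_eq_zero (Finset.mem_univ i) (if_neg hi)

/-- **TP.** -/
theorem tp : S_TP := by
  intro F V A O _ _ _ w D τ m P hP g T
  induction T generalizing τ with
  | done o =>
    refine ⟨fun _ => g o, H746R3.Inv.const_mem _ _, fun x _ => ?_⟩
    simp [Prog.addrs, Prog.out]
  | probe a k ih =>
    cases τ with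
    | zero =>
      refine ⟨0, Submodule.zero_mem _, fun x _ => ?_⟩
      simp [Prog.addrs]
    | succ τ =>
      choose Q hQ hQx using fun b : Fin w → Bool => ih b τ
      refine ⟨∑ b : Fin w → Bool, (∏ i, (if b i then P a i else 1 - P a i)) * Q b,
        Submodule.sum_mem _ fun b _ => ?_, fun x hx => ?_⟩
      · have h := H746R3.Inv.mul_mem (ind_mem w D (P a) (hP a) b) (hQ b)
        rwa [show w * D + τ * (w * D) = (τ + 1) * (w * D) by ring] at h
      · rw [Finset.sum_apply]
        rw [Finset.sum_eq_single (m x a)]
        · rw [Pi.mul_apply, ind_val w (P a) x (m x a) (m x a) (hx a), if_pos rfl, one_mul,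
            hQx (m x a) x hx]
          simp only [Prog.addrs, Prog.out, List.length_cons, Nat.succ_le_succ_iff]
        · intro b _ hb
          rw [Pi.mul_apply, ind_val w (P a) x (m x a) b (hx a), if_neg (Ne.symm hb), zero_mul]
        · intro h
          exact absurd (Finset.mem_univ _) h

end Pool.Agent.Helper88K9.MA
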