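import Pool.Agent.Helper89K9.MA.Stm

/-!
# Project MA: the memory for each value of the side information
-/

set_option autoImplicit false

namespace Pool.Agent.Helper88K9.MA

open Finset
open Pool.Agent.Helper89K9.MA

/-- **VIR.** -/
theorem vir : S_VIR := by
  classical
  intro p X A W Y _ L s m f h
  -- extend from the fibre of f by choice: the value of m at some point of the fibre with the same
  -- values of the polynomials, if any, and a default value otherwise
  choose P hP hm using h
  let x0 : X := Classical.arbitrary X
  let mm : Y → X → A → W := fun y x a =>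
    if hx : ∃ x', f x' = y ∧ ∀ j, P a y j x' = P a y j x then m hx.choose a else m x0 a
  refine ⟨mm, fun x => ?_, fun y a => ⟨P a y, hP a y, fun x x' hxx => ?_⟩⟩
  · funext a
    have hx : ∃ x', f x' = f x ∧ ∀ j, P a (f x) j x' = P a (f x) j x := ⟨x, rfl, fun _ => rfl⟩
    have e : mm (f x) x a = m hx.choose a := dif_pos hx
    rw [e]
    exact hm a (f x) _ _ hx.choose_spec.1 rfl hx.choose_spec.2
  · have key : (fun u : X => f u = y ∧ ∀ j, P a y j u = P a y j x) =
        fun u : X => f u = y ∧ ∀ j, P a y j u = P a y j x' := by
      funext u
      simp only [hxx]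
    show (if hx : ∃ u, f u = y ∧ ∀ j, P a y j u = P a y j x then m hx.choose a else m x0 a) =
      (if hx : ∃ u, f u = y ∧ ∀ j, P a y j u = P a y j x' then m hx.choose a else m x0 a)
    have gen : ∀ q q' : X → Prop, q = q' →
        (if hx : ∃ u, q u then m hx.choose a else m x0 a) =
        (if hx : ∃ u, q' u then m hx.choose a else m x0 a) := by
      rintro q _ rfl
      rfl
    exact gen _ _ key

end Pool.Agent.Helper88K9.MA
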